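import Mathlib

namespace Pool.Agent.Results.MP_92be64_al.DualIso

open Module Polynomial

section Defs

variable {K V : Type*} [Field K] [AddCommGroup V] [Module K V]

/-- `E 0, …, E d` is an ordering of the eigenspaces of `A` with
`As (E i) ⊆ E (i-1) + E i + E (i+1)` for all `i` (where `E (-1) = E (d+1) = 0`). -/
structure IsTridiagonalOrdering (A As : Module.End K V) (d : ℕ)
    (E : Fin (d + 1) → Submodule K V) : Prop where
  inj : Function.Injective E
  mem_iff : ∀ W : Submodule K V,
    (∃ i, E i = W) ↔ ∃ μ : K, A.HasEigenvalue μ ∧ W = A.eigenspace μ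
  tri : ∀ i, (E i).map As ≤
    ⨆ (j : Fin (d + 1)) (_ : (j : ℕ) ≤ (i : ℕ) + 1 ∧ (i : ℕ) ≤ (j : ℕ) + 1), E j

/-- Tridiagonal pairs of linear maps. -/
structure IsTridiagonalPair (A As : Module.End K V) : Prop where
  diag : ⨆ μ : K, A.eigenspace μ = ⊤
  diag_star : ⨆ μ : K, As.eigenspace μ = ⊤
  ordering : ∃ (d : ℕ) (E : Fin (d + 1) → Submodule K V), IsTridiagonalOrdering A As d E
  ordering_star : ∃ (d : ℕ) (E : Fin (d + 1) → Submodule K V), IsTridiagonalOrdering As A d E
  irred : ∀ W : Submodule K V, (∀ w ∈ W, A w ∈ W) → (∀ w ∈ W, As w ∈ W) → W = ⊥ ∨ W = ⊤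

end Defs

section Numeric

variable {K : Type*} [Field K]

/-- Vandermonde: a function on nodes, supported on an interval of `n` nodes and orthogonal to all
powers below `n`, vanishes. -/
lemma vand {N : ℕ} (th : Fin N → K) (hth : Function.Injective th) (g : Fin N → K) (a n : ℕ)
    (hs : ∀ i, g i ≠ 0 → a ≤ (i : ℕ) ∧ (i : ℕ) < a + n)
    (ho : ∀ t, t < n → ∑ i, th i ^ t * g i = 0) : ∀ i, g i = 0 := by
  classical
  intro i0
  by_contra h0
  have hi0 := hs i0 h0
  let T : Finset (Fin N) := Finset.univ.filter (fun i => a ≤ (i : ℕ) ∧ (i : ℕ) < a + n)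
  have hi0T : i0 ∈ T := by simp [T, hi0]
  have hcard : T.card ≤ n := by
    have : (T.image (fun i : Fin N => (i : ℕ))).card ≤ (Finset.Ico a (a + n)).card := by
      apply Finset.card_le_card
      intro x hx
      simp only [T, Finset.mem_image, Finset.mem_filter, Finset.mem_univ, true_and] at hx
      obtain ⟨i, hi, rfl⟩ := hx
      exact Finset.mem_Ico.mpr hi
    rw [Finset.card_image_of_injective _ Fin.val_injective, Nat.card_Ico] at this
    omega
  let p : K[X] := ∏ i ∈ T.erase i0, (X - C (th i))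
  have hdeg : p.natDegree < n := by
    have h1 : p.natDegree = (T.erase i0).card := by
      simp only [p]
      rw [natDegree_prod_of_monic _ _ (fun i _ => monic_X_sub_C _)]
      simp
    rw [h1, Finset.card_erase_of_mem hi0T]
    have : 0 < T.card := Finset.card_pos.mpr ⟨i0, hi0T⟩
    omega
  have hsum : ∑ i, p.eval (th i) * g i = 0 := by
    have h1 : ∀ i, p.eval (th i) * g i = ∑ t ∈ Finset.range n, p.coeff t * (th i ^ t * g i) := by
      intro i
      rw [eval_eq_sum_range' hdeg, Finset.sum_mul]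
      exact Finset.sum_congr rfl fun t _ => by ring
    simp_rw [h1]
    rw [Finset.sum_comm]
    refine Finset.sum_eq_zero fun t ht => ?_
    rw [← Finset.mul_sum, ho t (Finset.mem_range.mp ht), mul_zero]
  rw [Finset.sum_eq_single i0] at hsum
  · have hp : p.eval (th i0) ≠ 0 := by
      simp only [p, eval_prod, eval_sub, eval_X, eval_C]
      refine Finset.prod_ne_zero_iff.mpr fun i hi => ?_
      exact sub_ne_zero.mpr fun h => (Finset.mem_erase.mp hi).1 (hth h).symm
    exact (mul_ne_zero hp h0) hsum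
  · intro i _ hne
    by_cases hgi : g i = 0
    · rw [hgi, mul_zero]
    · have : i ∈ T.erase i0 := by
        refine Finset.mem_erase.mpr ⟨hne, ?_⟩
        simp [T, hs i hgi]
      have h2 : p.eval (th i) = 0 := by
        simp only [p, eval_prod, eval_sub, eval_X, eval_C]
        exact Finset.prod_eq_zero this (sub_self _)
      rw [h2, zero_mul]
  · simp

/-- Banded matrices with orthogonality vanish (first version). -/
lemma bandL {d : ℕ} (th : Fin (d + 1) → K) (hth : Function.Injective th)
    (g : Fin (d + 1) → Fin (d + 1) → K) (n : ℕ)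
    (hband : ∀ i k : Fin (d + 1), ((i : ℕ) + n ≤ k ∨ (k : ℕ) + n ≤ i) → g i k = 0)
    (hcol : ∀ k t, t < n → ∑ i, th i ^ t * g i k = 0)
    (hrow : ∀ i t, t + 1 < n → ∑ k, th k ^ t * g i k = 0) : ∀ i k, g i k = 0 := by
  have key : ∀ s : ℕ, ∀ i k : Fin (d + 1), ((i : ℕ) < s ∨ (k : ℕ) < s) → g i k = 0 := by
    intro s
    induction s with
    | zero => intro i k h; omega
    | succ s ih =>
      have hc : ∀ i k : Fin (d + 1), (k : ℕ) = s → g i k = 0 := by
        intro i k hk
        refine vand th hth (fun i => g i k) s n ?_ (fun t ht => hcol k t ht) i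
        intro i hi
        by_contra hcon
        apply hi
        by_cases h1 : (i : ℕ) < s
        · exact ih i k (Or.inl h1)
        · exact hband i k (Or.inr (by omega))
      have hr : ∀ i k : Fin (d + 1), (i : ℕ) = s → g i k = 0 := by
        intro i k hi
        refine vand th hth (fun k => g i k) (s + 1) (n - 1) ?_
          (fun t ht => hrow i t (by omega)) k
        intro k hk
        by_contra hcon
        apply hk
        by_cases h1 : (k : ℕ) < s
        · exact ih i k (Or.inr h1)
        · by_cases h2 : (k : ℕ) = s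
          · exact hc i k h2
          · exact hband i k (Or.inl (by omega))
      intro i k h
      by_cases h1 : (i : ℕ) < s ∨ (k : ℕ) < s
      · exact ih i k h1
      · rcases h with h | h
        · exact hr i k (by omega)
        · exact hc i k (by omega)
  intro i k
  exact key (i + 1) i k (Or.inl (Nat.lt_succ_self _))

/-- Banded matrices with orthogonality and zero diagonal vanish (second version). -/
lemma bandC {d : ℕ} (th : Fin (d + 1) → K) (hth : Function.Injective th)
    (g : Fin (d + 1) → Fin (d + 1) → K) (n : ℕ)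
    (hdiag : ∀ i, g i i = 0)
    (hband : ∀ i k : Fin (d + 1), ((i : ℕ) + n < k ∨ (k : ℕ) + n < i) → g i k = 0)
    (hcol : ∀ k t, t < n → ∑ i, th i ^ t * g i k = 0)
    (hrow : ∀ i t, t < n → ∑ k, th k ^ t * g i k = 0) : ∀ i k, g i k = 0 := by
  have key : ∀ s : ℕ, ∀ i k : Fin (d + 1), ((i : ℕ) < s ∨ (k : ℕ) < s) → g i k = 0 := by
    intro s
    induction s with
    | zero => intro i k h; omega
    | succ s ih =>
      have hc : ∀ i k : Fin (d + 1), (k : ℕ) = s → g i k = 0 := by
        intro i k hk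
        refine vand th hth (fun i => g i k) (s + 1) n ?_ (fun t ht => hcol k t ht) i
        intro i hi
        by_contra hcon
        apply hi
        by_cases h1 : (i : ℕ) < s
        · exact ih i k (Or.inl h1)
        · by_cases h2 : (i : ℕ) = s
          · have : i = k := Fin.ext (by omega)
            rw [this]; exact hdiag k
          · exact hband i k (Or.inr (by omega))
      have hr : ∀ i k : Fin (d + 1), (i : ℕ) = s → g i k = 0 := by
        intro i k hi
        refine vand th hth (fun k => g i k) (s + 1) n ?_ (fun t ht => hrow i t ht) k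
        intro k hk
        by_contra hcon
        apply hk
        by_cases h1 : (k : ℕ) < s
        · exact ih i k (Or.inr h1)
        · by_cases h2 : (k : ℕ) = s
          · exact hc i k h2
          · exact hband i k (Or.inl (by omega))
      intro i k h
      by_cases h1 : (i : ℕ) < s ∨ (k : ℕ) < s
      · exact ih i k h1
      · rcases h with h | h
        · exact hr i k (by omega)
        · exact hc i k (by omega)
  intro i k
  exact key (i + 1) i k (Or.inl (Nat.lt_succ_self _))

/-- The three-index vanishing lemma behind the reduction of words. -/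
lemma numK {d δ : ℕ} (th : Fin (d + 1) → K) (hth : Function.Injective th)
    (ths : Fin (δ + 1) → K) (hths : Function.Injective ths)
    (f : Fin (d + 1) → Fin (δ + 1) → Fin (d + 1) → K) (p r h : ℕ) (hp : p < h) (hr : r ≤ h)
    (ha : ∀ (j : Fin (δ + 1)) k t, p + t < j → ∑ i, th i ^ t * f i j k = 0)
    (hb : ∀ i (j : Fin (δ + 1)) t, r + t < j → ∑ k, th k ^ t * f i j k = 0)
    (hc : ∀ (i k : Fin (d + 1)) t, ((i : ℕ) + t < k ∨ (k : ℕ) + t < i) →
      ∑ j, ths j ^ t * f i j k = 0)
    (hd : ∀ i (j : Fin (δ + 1)) k, (j : ℕ) < h → f i j k = 0) : ∀ i j k, f i j k = 0 := by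
  have key : ∀ s m : ℕ, m + s = δ + 1 → ∀ i (j : Fin (δ + 1)) k, m ≤ (j : ℕ) → f i j k = 0 := by
    intro s
    induction s with
    | zero =>
      intro m hm i j k hj
      have := j.isLt
      omega
    | succ s ih =>
      intro m hm
      have ih' := ih (m + 1) (by omega)
      by_cases hmh : m < h
      · intro i j k hj
        by_cases h1 : m + 1 ≤ (j : ℕ)
        · exact ih' i j k h1
        · exact hd i j k (by omega)
      · -- `m ≥ h`
        have hfar : ∀ (i k : Fin (d + 1)), ((i : ℕ) + (m - h + 1) ≤ k ∨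
            (k : ℕ) + (m - h + 1) ≤ i) → ∀ j, f i j k = 0 := by
          intro i k hik
          refine vand ths hths (fun j => f i j k) h (m - h + 1) ?_ ?_
          · intro j hj
            by_contra hcon
            apply hj
            by_cases h1 : (j : ℕ) < h
            · exact hd i j k h1
            · exact ih' i j k (by omega)
          · intro t ht
            exact hc i k t (by omega)
        intro i j k hj
        by_cases h1 : m + 1 ≤ (j : ℕ)
        · exact ih' i j k h1
        · have hjm : (j : ℕ) = m := by omega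
          refine bandL th hth (fun i k => f i j k) (m - h + 1) ?_ ?_ ?_ i k
          · intro i k hik
            exact hfar i k hik j
          · intro k t ht
            exact ha j k t (by omega)
          · intro i t ht
            exact hb i j t (by omega)
  intro i j k
  exact key (δ + 1) 0 (by omega) i j k (Nat.zero_le _)

/-- The three-index vanishing lemma behind commutativity. -/
lemma numC {d δ : ℕ} (th : Fin (d + 1) → K) (hth : Function.Injective th)
    (ths : Fin (δ + 1) → K) (hths : Function.Injective ths)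
    (f : Fin (d + 1) → Fin (δ + 1) → Fin (d + 1) → K)
    (ha : ∀ (j : Fin (δ + 1)) k t, t < (j : ℕ) → ∑ i, th i ^ t * f i j k = 0)
    (hb : ∀ i (j : Fin (δ + 1)) t, t < (j : ℕ) → ∑ k, th k ^ t * f i j k = 0)
    (hc : ∀ (i k : Fin (d + 1)) t, ((i : ℕ) + t < k ∨ (k : ℕ) + t < i) →
      ∑ j, ths j ^ t * f i j k = 0)
    (hd : ∀ i j, f i j i = 0) : ∀ i j k, f i j k = 0 := by
  have key : ∀ s m : ℕ, m + s = δ + 1 → ∀ i (j : Fin (δ + 1)) k, m ≤ (j : ℕ) → f i j k = 0 := by
    intro s
    induction s with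
    | zero =>
      intro m hm i j k hj
      have := j.isLt
      omega
    | succ s ih =>
      intro m hm
      have ih' := ih (m + 1) (by omega)
      have hfar : ∀ (i k : Fin (d + 1)), ((i : ℕ) + m < k ∨
          (k : ℕ) + m < i) → ∀ j, f i j k = 0 := by
        intro i k hik
        refine vand ths hths (fun j => f i j k) 0 (m + 1) ?_ ?_
        · intro j hj
          by_contra hcon
          apply hj
          exact ih' i j k (by omega)
        · intro t ht
          exact hc i k t (by omega)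
      intro i j k hj
      by_cases h1 : m + 1 ≤ (j : ℕ)
      · exact ih' i j k h1
      · have hjm : (j : ℕ) = m := by omega
        refine bandC th hth (fun i k => f i j k) m (fun i => hd i j) ?_ ?_ ?_ i k
        · intro i k hik
          exact hfar i k hik j
        · intro k t ht
          exact ha j k t (by omega)
        · intro i t ht
          exact hb i j t (by omega)
  intro i j k
  exact key (δ + 1) 0 (by omega) i j k (Nat.zero_le _)

end Numeric

section Alg

variable {K U : Type*} [Field K] [Ring U] [Algebra K U]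

lemma sum_smul_pow {n : ℕ} (e : Fin n → U) (th : Fin n → K)
    (e_mul : ∀ i j, e i * e j = if i = j then e i else 0) (e_sum : ∑ i, e i = 1) (t : ℕ) :
    (∑ i, th i • e i) ^ t = ∑ i, th i ^ t • e i := by
  induction t with
  | zero => simp [e_sum]
  | succ t ih =>
    rw [pow_succ, ih, Finset.sum_mul]
    refine Finset.sum_congr rfl fun i _ => ?_
    rw [Finset.mul_sum, Finset.sum_eq_single i]
    · rw [smul_mul_smul_comm, e_mul, if_pos rfl, pow_succ]
    · intro j _ hj
      rw [smul_mul_smul_comm, e_mul, if_neg (Ne.symm hj), smul_zero]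
    · simp

lemma tri_pow {n : ℕ} (e : Fin n → U) (e_sum : ∑ i, e i = 1) (b : U)
    (e_mul : ∀ i j, e i * e j = if i = j then e i else 0)
    (htri : ∀ i k : Fin n, ((i : ℕ) + 1 < k ∨ (k : ℕ) + 1 < i) → e i * b * e k = 0) (t : ℕ) :
    ∀ i k : Fin n, ((i : ℕ) + t < k ∨ (k : ℕ) + t < i) → e i * b ^ t * e k = 0 := by
  induction t with
  | zero =>
    intro i k h
    rw [pow_zero, mul_one, e_mul, if_neg]
    rintro rfl
    omega
  | succ t ih =>
    intro i k h
    have h1 : e i * b ^ (t + 1) * e k = ∑ l, (e i * b ^ t * e l) * (e l * b * e k) := by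
      calc e i * b ^ (t + 1) * e k = e i * b ^ t * 1 * b * e k := by rw [pow_succ]; noncomm_ring
        _ = e i * b ^ t * (∑ l, e l) * b * e k := by rw [e_sum]
        _ = ∑ l, e i * b ^ t * e l * b * e k := by
            rw [Finset.mul_sum, Finset.sum_mul, Finset.sum_mul]
        _ = ∑ l, (e i * b ^ t * e l) * (e l * b * e k) := by
            refine Finset.sum_congr rfl fun l _ => ?_
            calc e i * b ^ t * e l * b * e k = e i * b ^ t * (e l * e l) * b * e k := by
                  rw [e_mul, if_pos rfl]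
              _ = _ := by noncomm_ring
    rw [h1]
    refine Finset.sum_eq_zero fun l _ => ?_
    by_cases hl : ((i : ℕ) + t < l ∨ (l : ℕ) + t < i)
    · rw [ih i l hl, zero_mul]
    · rw [htri l k (by omega), mul_zero]

/-- Abstract data: two families of orthogonal idempotents, each acting tridiagonally on the
other. -/
structure TDData (K U : Type*) [Field K] [Ring U] [Algebra K U] (d δ : ℕ) where
  e : Fin (d + 1) → U
  es : Fin (δ + 1) → U
  th : Fin (d + 1) → K
  ths : Fin (δ + 1) → K
  th_inj : Function.Injective th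
  ths_inj : Function.Injective ths
  e_mul : ∀ i j, e i * e j = if i = j then e i else 0
  e_sum : ∑ i, e i = 1
  es_mul : ∀ i j, es i * es j = if i = j then es i else 0
  es_sum : ∑ i, es i = 1
  tri : ∀ i k : Fin (d + 1), ((i : ℕ) + 1 < k ∨ (k : ℕ) + 1 < i) →
    e i * (∑ j, ths j • es j) * e k = 0
  tris : ∀ j l : Fin (δ + 1), ((j : ℕ) + 1 < l ∨ (l : ℕ) + 1 < j) →
    es j * (∑ i, th i • e i) * es l = 0

variable {d δ : ℕ} (T : TDData K U d δ)

lemma TDData.tri' (T : TDData K U d δ) (t : ℕ) (i k : Fin (d + 1))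
    (h : (i : ℕ) + t < k ∨ (k : ℕ) + t < i) :
    T.e i * (∑ j, T.ths j ^ t • T.es j) * T.e k = 0 := by
  rw [← sum_smul_pow T.es T.ths T.es_mul T.es_sum t]
  exact tri_pow T.e T.e_sum _ T.e_mul T.tri t i k h

lemma TDData.tris' (T : TDData K U d δ) (t : ℕ) (j l : Fin (δ + 1))
    (h : (j : ℕ) + t < l ∨ (l : ℕ) + t < j) :
    T.es j * (∑ i, T.th i ^ t • T.e i) * T.es l = 0 := by
  rw [← sum_smul_pow T.e T.th T.e_mul T.e_sum t]
  exact tri_pow T.es T.es_sum _ T.es_mul T.tris t j l h

/-- The five-letter words `es_p e_i es_j e_k es_r`. -/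
def TDData.w5 (T : TDData K U d δ) (p r : Fin (δ + 1)) (i : Fin (d + 1)) (j : Fin (δ + 1))
    (k : Fin (d + 1)) : U := T.es p * T.e i * T.es j * T.e k * T.es r

lemma TDData.w5_a (T : TDData K U d δ) (p r j : Fin (δ + 1)) (k : Fin (d + 1)) (t : ℕ)
    (h : (p : ℕ) + t < j ∨ (j : ℕ) + t < p) : ∑ i, T.th i ^ t • T.w5 p r i j k = 0 := by
  have h1 : ∑ i, T.th i ^ t • T.w5 p r i j k =
      (T.es p * (∑ i, T.th i ^ t • T.e i) * T.es j) * (T.e k * T.es r) := by
    rw [Finset.mul_sum, Finset.sum_mul, Finset.sum_mul]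
    refine Finset.sum_congr rfl fun i _ => ?_
    simp only [TDData.w5, mul_smul_comm, smul_mul_assoc, mul_assoc]
  rw [h1, T.tris' t p j h, zero_mul]

lemma TDData.w5_b (T : TDData K U d δ) (p r j : Fin (δ + 1)) (i : Fin (d + 1)) (t : ℕ)
    (h : (r : ℕ) + t < j ∨ (j : ℕ) + t < r) : ∑ k, T.th k ^ t • T.w5 p r i j k = 0 := by
  have h1 : ∑ k, T.th k ^ t • T.w5 p r i j k =
      (T.es p * T.e i) * (T.es j * (∑ k, T.th k ^ t • T.e k) * T.es r) := by
    rw [Finset.mul_sum, Finset.sum_mul, Finset.mul_sum]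
    refine Finset.sum_congr rfl fun i _ => ?_
    simp only [TDData.w5, mul_smul_comm, smul_mul_assoc, mul_assoc]
  rw [h1, T.tris' t j r (by omega), mul_zero]

lemma TDData.w5_c (T : TDData K U d δ) (p r : Fin (δ + 1)) (i k : Fin (d + 1)) (t : ℕ)
    (h : (i : ℕ) + t < k ∨ (k : ℕ) + t < i) : ∑ j, T.ths j ^ t • T.w5 p r i j k = 0 := by
  have h1 : ∑ j, T.ths j ^ t • T.w5 p r i j k =
      T.es p * (T.e i * (∑ j, T.ths j ^ t • T.es j) * T.e k) * T.es r := by
    rw [Finset.mul_sum, Finset.sum_mul, Finset.mul_sum, Finset.sum_mul]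
    refine Finset.sum_congr rfl fun i _ => ?_
    simp only [TDData.w5, mul_smul_comm, smul_mul_assoc, mul_assoc]
  rw [h1, T.tri' t i k h, mul_zero, zero_mul]

/-- Key reduction: peaks can be lowered. -/
lemma TDData.reduce (T : TDData K U d δ) (p r h : Fin (δ + 1)) (hp : p < h) (hr : r ≤ h)
    (i k : Fin (d + 1)) :
    T.w5 p r i h k ∈ Submodule.span K
      {x | ∃ i' k' : Fin (d + 1), ∃ j' : Fin (δ + 1), j' < h ∧ x = T.w5 p r i' j' k'} := by
  by_contra hcon
  obtain ⟨φ, hφ1, hφ2⟩ := Submodule.exists_le_ker_of_notMem hcon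
  apply hφ1
  refine numK T.th T.th_inj T.ths T.ths_inj (fun i j k => φ (T.w5 p r i j k)) p r h hp hr
    ?_ ?_ ?_ ?_ i h k
  · intro j k t ht
    have := congrArg φ (T.w5_a p r j k t (Or.inl ht))
    simpa using this
  · intro i j t ht
    have := congrArg φ (T.w5_b p r j i t (Or.inl ht))
    simpa using this
  · intro i k t ht
    have := congrArg φ (T.w5_c p r i k t ht)
    simpa using this
  · intro i j k hj
    exact hφ2 (Submodule.subset_span ⟨i, k, j, hj, rfl⟩)

/-- Commutation of `es_0 e_i es_0` with `es_0 e_k es_0`. -/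
lemma TDData.comm (T : TDData K U d δ) (i k : Fin (d + 1)) :
    T.w5 0 0 i 0 k = T.w5 0 0 k 0 i := by
  rw [← sub_eq_zero, ← Module.forall_dual_apply_eq_zero_iff K]
  intro φ
  rw [map_sub]
  refine numC T.th T.th_inj T.ths T.ths_inj
    (fun i j k => φ (T.w5 0 0 i j k) - φ (T.w5 0 0 k j i)) ?_ ?_ ?_ ?_ i 0 k
  · intro j k t ht
    have h1 := congrArg φ (T.w5_a 0 0 j k t (Or.inl (by simpa using ht)))
    have h2 := congrArg φ (T.w5_b 0 0 j k t (Or.inl (by simpa using ht)))
    simp only [map_sum, map_smul, smul_eq_mul, map_zero] at h1 h2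
    simp only [mul_sub, Finset.sum_sub_distrib, h1, h2, sub_zero]
  · intro i j t ht
    have h1 := congrArg φ (T.w5_a 0 0 j i t (Or.inl (by simpa using ht)))
    have h2 := congrArg φ (T.w5_b 0 0 j i t (Or.inl (by simpa using ht)))
    simp only [map_sum, map_smul, smul_eq_mul, map_zero] at h1 h2
    simp only [mul_sub, Finset.sum_sub_distrib, h1, h2, sub_zero]
  · intro i k t ht
    have h1 := congrArg φ (T.w5_c 0 0 i k t ht)
    have h2 := congrArg φ (T.w5_c 0 0 k i t ht.symm)
    simp only [map_sum, map_smul, smul_eq_mul, map_zero] at h1 h2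
    simp only [mul_sub, Finset.sum_sub_distrib, h1, h2, sub_zero]
  · intro i j
    simp

/-- Words `es_0 e_{i₁} es_{j₁} ⋯ e_{iₙ} es_{jₙ}` with all `j` smaller than `h`. -/
inductive TDData.Word (T : TDData K U d δ) (h : ℕ) : U → Prop
  | base : TDData.Word T h (T.es 0)
  | step (x : U) (i : Fin (d + 1)) (j : Fin (δ + 1)) : TDData.Word T h x → (j : ℕ) < h →
      TDData.Word T h (x * T.e i * T.es j)

/-- The span of the words of height less than `h`. -/
def TDData.L (T : TDData K U d δ) (h : ℕ) : Submodule K U := Submodule.span K {x | T.Word h x}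

lemma TDData.L_step (T : TDData K U d δ) {h : ℕ} {x : U} (hx : x ∈ T.L h) (i : Fin (d + 1))
    {j : Fin (δ + 1)} (hj : (j : ℕ) < h) : x * T.e i * T.es j ∈ T.L h := by
  have : T.L h ≤ (T.L h).comap (LinearMap.mulRight K (T.e i * T.es j)) := by
    refine Submodule.span_le.mpr fun y hy => ?_
    simp only [SetLike.mem_coe, Submodule.mem_comap, LinearMap.mulRight_apply, ← mul_assoc]
    exact Submodule.subset_span (TDData.Word.step y i j hy hj)
  have h2 := this hx
  simpa only [Submodule.mem_comap, LinearMap.mulRight_apply, ← mul_assoc] using h2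

lemma TDData.word_es (T : TDData K U d δ) {h : ℕ} (hh : 1 ≤ h) {x : U} (hx : T.Word h x) :
    ∃ j : Fin (δ + 1), (j : ℕ) < h ∧ ∀ p, x * T.es p = if j = p then x else 0 := by
  cases hx with
  | base =>
    refine ⟨0, by simp; omega, fun p => ?_⟩
    rw [T.es_mul]
  | step y i j hy hj =>
    refine ⟨j, hj, fun p => ?_⟩
    rw [mul_assoc (y * T.e i), T.es_mul]
    split_ifs <;> simp

lemma TDData.L_es (T : TDData K U d δ) {h : ℕ} (hh : 1 ≤ h) {x : U} (hx : x ∈ T.L h)
    (p : Fin (δ + 1)) : x * T.es p ∈ T.L h := by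
  have : T.L h ≤ (T.L h).comap (LinearMap.mulRight K (T.es p)) := by
    refine Submodule.span_le.mpr fun y hy => ?_
    simp only [SetLike.mem_coe, Submodule.mem_comap, LinearMap.mulRight_apply]
    obtain ⟨j, -, hj⟩ := T.word_es hh hy
    rw [hj p]
    split_ifs
    · exact Submodule.subset_span hy
    · exact zero_mem _
  exact this hx

lemma TDData.L_es_zero (T : TDData K U d δ) {h : ℕ} (hh : 1 ≤ h) {x : U} (hx : x ∈ T.L h)
    (p : Fin (δ + 1)) (hp : h ≤ (p : ℕ)) : x * T.es p = 0 := by
  have : T.L h ≤ LinearMap.ker (LinearMap.mulRight K (T.es p)) := by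
    refine Submodule.span_le.mpr fun y hy => ?_
    simp only [SetLike.mem_coe, LinearMap.mem_ker, LinearMap.mulRight_apply]
    obtain ⟨j, hjh, hj⟩ := T.word_es hh hy
    rw [hj p, if_neg]
    rintro rfl
    omega
  exact this hx

/-- The auxiliary submodule `L_h + L_h D es_h`. -/
def TDData.N (T : TDData K U d δ) (h : Fin (δ + 1)) : Submodule K U :=
  T.L h ⊔ Submodule.span K {x | ∃ y ∈ T.L h, ∃ i, x = y * T.e i * T.es h}

lemma TDData.N_of_L (T : TDData K U d δ) {h : Fin (δ + 1)} {y : U}
    (hy : y ∈ T.L h) (k : Fin (d + 1)) (j : Fin (δ + 1)) (hj : j ≤ h) :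
    y * T.e k * T.es j ∈ T.N h := by
  rcases lt_or_eq_of_le hj with hlt | rfl
  · exact Submodule.mem_sup_left (T.L_step hy k hlt)
  · exact Submodule.mem_sup_right (Submodule.subset_span ⟨y, hy, k, rfl⟩)

lemma TDData.N_step (T : TDData K U d δ) {h : Fin (δ + 1)} (hh : 1 ≤ (h : ℕ)) {x : U}
    (hx : x ∈ T.N h) (k : Fin (d + 1)) (j : Fin (δ + 1)) (hj : j ≤ h) :
    x * T.e k * T.es j ∈ T.N h := by
  have : T.N h ≤ (T.N h).comap (LinearMap.mulRight K (T.e k * T.es j)) := by
    refine sup_le ?_ (Submodule.span_le.mpr ?_)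
    · intro y hy
      simp only [Submodule.mem_comap, LinearMap.mulRight_apply, ← mul_assoc]
      exact T.N_of_L hy k j hj
    · rintro _ ⟨y, hy, i, rfl⟩
      simp only [SetLike.mem_coe, Submodule.mem_comap, LinearMap.mulRight_apply, ← mul_assoc]
      have h1 : y * T.e i * T.es h * T.e k * T.es j = ∑ p, y * T.w5 p j i h k := by
        calc y * T.e i * T.es h * T.e k * T.es j
            = y * 1 * (T.e i * T.es h * T.e k * T.es j) := by noncomm_ring
          _ = y * (∑ p, T.es p) * (T.e i * T.es h * T.e k * T.es j) := by rw [T.es_sum]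
          _ = ∑ p, y * T.es p * (T.e i * T.es h * T.e k * T.es j) := by
              rw [Finset.mul_sum, Finset.sum_mul]
          _ = _ := by
              refine Finset.sum_congr rfl fun p _ => ?_
              simp only [TDData.w5, mul_assoc]
      rw [h1]
      refine Submodule.sum_mem _ fun p _ => ?_
      by_cases hp : p < h
      · have h2 : Submodule.span K {x | ∃ i' k' : Fin (d + 1), ∃ j' : Fin (δ + 1),
            j' < h ∧ x = T.w5 p j i' j' k'} ≤ (T.N h).comap (LinearMap.mulLeft K y) := by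
          refine Submodule.span_le.mpr ?_
          rintro _ ⟨i', k', j', hj', rfl⟩
          simp only [SetLike.mem_coe, Submodule.mem_comap, LinearMap.mulLeft_apply]
          have h3 : y * T.w5 p j i' j' k' =
              (y * T.es p * T.e i' * T.es j') * T.e k' * T.es j := by
            simp only [TDData.w5, mul_assoc]
          rw [h3]
          exact T.N_of_L (T.L_step (T.L_es hh hy p) i' hj') k' j hj
        exact h2 (T.reduce p j h hp hj i k)
      · have h4 : y * T.w5 p j i h k = (y * T.es p) * (T.e i * T.es h * T.e k * T.es j) := by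
          simp only [TDData.w5, mul_assoc]
        rw [h4, T.L_es_zero hh hy p (by simpa using hp), zero_mul]
        exact zero_mem _
  have h2 := this hx
  simpa only [Submodule.mem_comap, LinearMap.mulRight_apply, ← mul_assoc] using h2

lemma TDData.L_succ_le (T : TDData K U d δ) (h : Fin (δ + 1)) (hh : 1 ≤ (h : ℕ)) :
    T.L (h + 1) ≤ T.N h := by
  refine Submodule.span_le.mpr fun x hx => ?_
  have hx' : T.Word ((h : ℕ) + 1) x := hx
  induction hx' with
  | base => exact Submodule.mem_sup_left (Submodule.subset_span TDData.Word.base)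
  | step y i j hy hj ih => exact T.N_step hh (ih hy) i j (by rw [Fin.le_def]; omega)

lemma TDData.L_down (T : TDData K U d δ) (h : Fin (δ + 1)) (hh : 1 ≤ (h : ℕ)) {x : U}
    (hx : x ∈ T.L (h + 1)) (r : Fin (δ + 1)) (hr : r < h) : x * T.es r ∈ T.L h := by
  have hN := T.L_succ_le h hh hx
  have : T.N h ≤ (T.L h).comap (LinearMap.mulRight K (T.es r)) := by
    refine sup_le ?_ (Submodule.span_le.mpr ?_)
    · intro y hy
      exact T.L_es hh hy r
    · rintro _ ⟨y, hy, i, rfl⟩
      simp only [SetLike.mem_coe, Submodule.mem_comap, LinearMap.mulRight_apply]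
      rw [mul_assoc, T.es_mul, if_neg (ne_of_gt hr), mul_zero]
      exact zero_mem _
  exact this hN

lemma TDData.L_to_one (T : TDData K U d δ) (h : ℕ) (hh : 1 ≤ h) (hδ : h ≤ δ + 1) {x : U}
    (hx : x ∈ T.L h) : x * T.es 0 ∈ T.L 1 := by
  induction h generalizing x with
  | zero => omega
  | succ n ih =>
    by_cases hn : n = 0
    · subst hn
      exact T.L_es le_rfl hx 0
    · have h1 : x * T.es 0 ∈ T.L n :=
        T.L_down ⟨n, by omega⟩ (by simp only; omega) hx 0 (by rw [Fin.lt_def]; simp; omega)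
      have h2 := ih (by omega) (by omega) h1
      rwa [mul_assoc, T.es_mul, if_pos rfl] at h2

lemma TDData.L_e (T : TDData K U d δ) {x : U} (hx : x ∈ T.L (δ + 1)) (i : Fin (d + 1)) :
    x * T.e i ∈ T.L (δ + 1) := by
  have : x * T.e i = ∑ j, x * T.e i * T.es j := by
    rw [← Finset.mul_sum, T.es_sum, mul_one]
  rw [this]
  exact Submodule.sum_mem _ fun j _ => T.L_step hx i j.isLt

lemma TDData.L_adjoin (T : TDData K U d δ) {w : U}
    (hw : w ∈ Algebra.adjoin K ({∑ i, T.th i • T.e i, ∑ j, T.ths j • T.es j} : Set U)) :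
    ∀ x ∈ T.L (δ + 1), x * w ∈ T.L (δ + 1) := by
  induction hw using Algebra.adjoin_induction with
  | mem y hy =>
    intro x hx
    rcases hy with rfl | rfl
    · rw [Finset.mul_sum]
      refine Submodule.sum_mem _ fun i _ => ?_
      rw [mul_smul_comm]
      exact Submodule.smul_mem _ _ (T.L_e hx i)
    · rw [Finset.mul_sum]
      refine Submodule.sum_mem _ fun i _ => ?_
      rw [mul_smul_comm]
      exact Submodule.smul_mem _ _ (T.L_es (by omega) hx i)
  | algebraMap c =>
    intro x hx
    rw [← Algebra.commutes, ← Algebra.smul_def]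
    exact Submodule.smul_mem _ _ hx
  | add y z _ _ hy hz =>
    intro x hx
    rw [mul_add]
    exact add_mem (hy x hx) (hz x hx)
  | mul y z _ _ hy hz =>
    intro x hx
    rw [← mul_assoc]
    exact hz _ (hy x hx)

lemma TDData.corner (T : TDData K U d δ) {w : U}
    (hw : w ∈ Algebra.adjoin K ({∑ i, T.th i • T.e i, ∑ j, T.ths j • T.es j} : Set U)) :
    T.es 0 * w * T.es 0 ∈ T.L 1 :=
  T.L_to_one (δ + 1) (by omega) le_rfl
    (T.L_adjoin hw _ (Submodule.subset_span TDData.Word.base))

lemma TDData.word_one (T : TDData K U d δ) (τ : U →ₗ[K] U) (hτ : ∀ x y, τ (x * y) = τ y * τ x)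
    (he : ∀ i, τ (T.e i) = T.e i) (hes : ∀ j, τ (T.es j) = T.es j) {x : U}
    (hx : T.Word 1 x) :
    τ x = x ∧ x * T.es 0 = x ∧ ∀ i, x * (T.es 0 * T.e i * T.es 0) =
      (T.es 0 * T.e i * T.es 0) * x := by
  induction hx with
  | base =>
    refine ⟨hes 0, by rw [T.es_mul, if_pos rfl], fun i => ?_⟩
    rw [← mul_assoc, ← mul_assoc, T.es_mul, if_pos rfl, mul_assoc, mul_assoc, mul_assoc,
      T.es_mul, if_pos rfl]
  | step y i j hy hj ih =>
    obtain ⟨h1, h2, h3⟩ := ih
    obtain rfl : j = 0 := Fin.ext (by simpa using hj)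
    have h00 : T.es 0 * T.es 0 = T.es 0 := by rw [T.es_mul, if_pos rfl]
    have hg : y * T.e i * T.es 0 = y * (T.es 0 * T.e i * T.es 0) := by
      conv_lhs => rw [← h2]
      noncomm_ring
    have hτg : τ (T.es 0 * T.e i * T.es 0) = T.es 0 * T.e i * T.es 0 := by
      rw [hτ, hτ, he, hes, mul_assoc]
    have hcomm : ∀ k, (T.es 0 * T.e i * T.es 0) * (T.es 0 * T.e k * T.es 0) =
        (T.es 0 * T.e k * T.es 0) * (T.es 0 * T.e i * T.es 0) := by
      intro k
      have e1 : ∀ i k, (T.es 0 * T.e i * T.es 0) * (T.es 0 * T.e k * T.es 0) =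
          T.w5 0 0 i 0 k := by
        intro i k
        calc (T.es 0 * T.e i * T.es 0) * (T.es 0 * T.e k * T.es 0)
            = T.es 0 * T.e i * (T.es 0 * T.es 0) * T.e k * T.es 0 := by noncomm_ring
          _ = _ := by rw [h00]; rfl
      rw [e1, e1, T.comm]
    refine ⟨?_, ?_, ?_⟩
    · rw [hg, hτ, hτg, h1, h3]
    · rw [mul_assoc, h00]
    · intro k
      rw [hg, mul_assoc, hcomm, ← mul_assoc, h3, mul_assoc]

lemma TDData.L_one_fixed (T : TDData K U d δ) (τ : U →ₗ[K] U)
    (hτ : ∀ x y, τ (x * y) = τ y * τ x)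
    (he : ∀ i, τ (T.e i) = T.e i) (hes : ∀ j, τ (T.es j) = T.es j) {x : U}
    (hx : x ∈ T.L 1) : τ x = x := by
  have : T.L 1 ≤ LinearMap.eqLocus τ LinearMap.id := by
    refine Submodule.span_le.mpr fun y hy => ?_
    exact (T.word_one τ hτ he hes hy).1
  exact this hx

end Alg

section Main

variable {K V : Type*} [Field K] [AddCommGroup V] [Module K V]

lemma aeval_eigen (A : Module.End K V) (p : K[X]) {μ : K} {v : V} (hv : v ∈ A.eigenspace μ) :
    aeval A p v = p.eval μ • v := by
  by_cases h0 : v = 0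
  · simp [h0]
  · exact Module.End.aeval_apply_of_hasEigenvector ⟨hv, h0⟩

lemma exists_proj {A As : Module.End K V} (hA : ⨆ μ : K, A.eigenspace μ = ⊤) {d : ℕ}
    {E : Fin (d + 1) → Submodule K V} (h : IsTridiagonalOrdering A As d E) :
    ∃ (θ : Fin (d + 1) → K) (P : Fin (d + 1) → Module.End K V), Function.Injective θ ∧
      (∀ i j, P i * P j = if i = j then P i else 0) ∧ ∑ i, P i = 1 ∧ ∑ i, θ i • P i = A ∧
      (∀ i k : Fin (d + 1), ((i : ℕ) + 1 < k ∨ (k : ℕ) + 1 < i) → P i * As * P k = 0) ∧
      ∀ i, P i ≠ 0 := by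
  classical
  have hθ : ∀ i, ∃ μ : K, A.HasEigenvalue μ ∧ E i = A.eigenspace μ :=
    fun i => (h.mem_iff (E i)).mp ⟨i, rfl⟩
  choose θ hθ1 hθ2 using hθ
  have hinj : Function.Injective θ := by
    intro i j hij
    apply h.inj
    rw [hθ2, hθ2, hij]
  have htop : ⨆ i, E i = ⊤ := by
    rw [eq_top_iff, ← hA]
    refine iSup_le fun μ => ?_
    by_cases hμ : A.HasEigenvalue μ
    · obtain ⟨i, hi⟩ := (h.mem_iff (A.eigenspace μ)).mpr ⟨μ, hμ, rfl⟩
      rw [← hi]
      exact le_iSup E i
    · have : A.eigenspace μ = ⊥ := by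
        by_contra hne
        exact hμ hne
      rw [this]
      exact bot_le
  let P : Fin (d + 1) → Module.End K V := fun i => aeval A (Lagrange.basis Finset.univ θ i)
  have hPE : ∀ i k, ∀ v ∈ E k, P i v = if i = k then v else 0 := by
    intro i k v hv
    rw [hθ2] at hv
    simp only [P]
    rw [aeval_eigen A _ hv]
    split_ifs with hik
    · subst hik
      rw [Lagrange.eval_basis_self (hinj.injOn) (Finset.mem_univ i), one_smul]
    · rw [Lagrange.eval_basis_of_ne hik (Finset.mem_univ k), zero_smul]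
  have hext : ∀ f g : Module.End K V, (∀ k, ∀ v ∈ E k, f v = g v) → f = g := by
    intro f g hfg
    have : (⊤ : Submodule K V) ≤ LinearMap.eqLocus f g := by
      rw [← htop]
      exact iSup_le fun k v hv => hfg k v hv
    ext v
    exact this (Submodule.mem_top (x := v))
  have hAE : ∀ k, ∀ v ∈ E k, A v = θ k • v := by
    intro k v hv
    rw [hθ2] at hv
    exact Module.End.mem_eigenspace_iff.mp hv
  have hsum : ∀ (c : Fin (d + 1) → K) (k : Fin (d + 1)) (v : V), v ∈ E k →
      (∑ i, c i • P i) v = c k • v := by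
    intro c k v hv
    rw [LinearMap.sum_apply, Finset.sum_eq_single k]
    · rw [LinearMap.smul_apply, hPE k k v hv, if_pos rfl]
    · intro i _ hik
      rw [LinearMap.smul_apply, hPE i k v hv, if_neg hik, smul_zero]
    · simp
  have hrange : ∀ k v, P k v ∈ E k := by
    intro k v
    have h1 : A * P k = θ k • P k := by
      apply hext
      intro l w hw
      rw [Module.End.mul_apply, LinearMap.smul_apply, hPE k l w hw]
      split_ifs with hkl
      · subst hkl
        exact hAE k w hw
      · simp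
    rw [hθ2, Module.End.mem_eigenspace_iff]
    have := LinearMap.congr_fun h1 v
    simpa using this
  refine ⟨θ, P, hinj, ?_, ?_, ?_, ?_, ?_⟩
  · intro i j
    apply hext
    intro k v hv
    rw [Module.End.mul_apply, hPE j k v hv]
    by_cases hjk : j = k
    · subst hjk
      rw [if_pos rfl, hPE i j v hv]
      by_cases hij : i = j
      · subst hij
        rw [if_pos rfl, if_pos rfl, hPE i i v hv, if_pos rfl]
      · rw [if_neg hij, if_neg hij]; rfl
    · rw [if_neg hjk, map_zero]
      by_cases hij : i = j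
      · subst hij
        rw [if_pos rfl, hPE i k v hv, if_neg hjk]
      · rw [if_neg hij]; rfl
  · apply hext
    intro k v hv
    have := hsum (fun _ => 1) k v hv
    simpa using this
  · apply hext
    intro k v hv
    rw [hsum θ k v hv, hAE k v hv]
  · intro i k hik
    ext v
    rw [Module.End.mul_apply, Module.End.mul_apply]
    have h1 : As (P k v) ∈ ⨆ (j : Fin (d + 1)) (_ : (j : ℕ) ≤ (k : ℕ) + 1 ∧
        (k : ℕ) ≤ (j : ℕ) + 1), E j := h.tri k ⟨P k v, hrange k v, rfl⟩
    have h2 : (⨆ (j : Fin (d + 1)) (_ : (j : ℕ) ≤ (k : ℕ) + 1 ∧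
        (k : ℕ) ≤ (j : ℕ) + 1), E j) ≤ LinearMap.ker (P i) := by
      refine iSup₂_le fun j hj w hw => ?_
      rw [LinearMap.mem_ker, hPE i j w hw, if_neg]
      rintro rfl
      omega
    exact h2 h1
  · intro i h0
    have h1 := hθ1 i
    obtain ⟨v, hv, hv0⟩ := h1.exists_hasEigenvector
    have hv' : v ∈ E i := by rw [hθ2]; exact hv
    have := hPE i i v hv'
    rw [if_pos rfl, h0] at this
    exact hv0 this.symm

open MulOpposite in
/-- The data in `End V × (End V)ᵐᵒᵖ` attached to two families of projections. -/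
lemma exists_pairData {A As : Module.End K V} {d δ : ℕ}
    {th : Fin (d + 1) → K} {P : Fin (d + 1) → Module.End K V}
    {ths : Fin (δ + 1) → K} {Ps : Fin (δ + 1) → Module.End K V}
    (hth : Function.Injective th) (hths : Function.Injective ths)
    (hP : ∀ i j, P i * P j = if i = j then P i else 0) (hPsum : ∑ i, P i = 1)
    (hPs : ∀ i j, Ps i * Ps j = if i = j then Ps i else 0) (hPssum : ∑ i, Ps i = 1)
    (hA : ∑ i, th i • P i = A) (hAs : ∑ i, ths i • Ps i = As)
    (htri : ∀ i k : Fin (d + 1), ((i : ℕ) + 1 < k ∨ (k : ℕ) + 1 < i) → P i * As * P k = 0)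
    (htris : ∀ i k : Fin (δ + 1), ((i : ℕ) + 1 < k ∨ (k : ℕ) + 1 < i) → Ps i * A * Ps k = 0) :
    ∃ T : TDData K (Module.End K V × (Module.End K V)ᵐᵒᵖ) d δ,
      (∀ i, T.e i = (P i, op (P i))) ∧ (∀ j, T.es j = (Ps j, op (Ps j))) ∧
      ∑ i, T.th i • T.e i = (A, op A) ∧ ∑ j, T.ths j • T.es j = (As, op As) := by
  have hsum1 : ∑ i, th i • ((P i, op (P i)) : Module.End K V × (Module.End K V)ᵐᵒᵖ) =
      (A, op A) := by
    refine Prod.ext ?_ ?_
    · rw [Prod.fst_sum]; simpa using hA
    · rw [Prod.snd_sum, ← hA]; simp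
  have hsum2 : ∑ i, ths i • ((Ps i, op (Ps i)) : Module.End K V × (Module.End K V)ᵐᵒᵖ) =
      (As, op As) := by
    refine Prod.ext ?_ ?_
    · rw [Prod.fst_sum]; simpa using hAs
    · rw [Prod.snd_sum, ← hAs]; simp
  refine ⟨{ e := fun i => (P i, op (P i))
            es := fun j => (Ps j, op (Ps j))
            th := th
            ths := ths
            th_inj := hth
            ths_inj := hths
            e_mul := ?_
            e_sum := ?_
            es_mul := ?_
            es_sum := ?_
            tri := ?_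
            tris := ?_ }, fun _ => rfl, fun _ => rfl, hsum1, hsum2⟩
  · intro i j
    rw [Prod.mk_mul_mk, ← op_mul, hP, hP]
    by_cases h : i = j
    · subst h; simp
    · rw [if_neg h, if_neg h, if_neg (Ne.symm h)]; rfl
  · refine Prod.ext ?_ ?_
    · rw [Prod.fst_sum]; exact hPsum
    · rw [Prod.snd_sum]
      simp only
      rw [← Finset.op_sum, hPsum]; rfl
  · intro i j
    rw [Prod.mk_mul_mk, ← op_mul, hPs, hPs]
    by_cases h : i = j
    · subst h; simp
    · rw [if_neg h, if_neg h, if_neg (Ne.symm h)]; rfl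
  · refine Prod.ext ?_ ?_
    · rw [Prod.fst_sum]; exact hPssum
    · rw [Prod.snd_sum]
      simp only
      rw [← Finset.op_sum, hPssum]; rfl
  · intro i k h
    rw [hsum2]
    rw [Prod.mk_mul_mk, Prod.mk_mul_mk, ← op_mul, ← op_mul, htri i k h, ← mul_assoc,
      htri k i h.symm]
    rfl
  · intro i k h
    rw [hsum1]
    rw [Prod.mk_mul_mk, Prod.mk_mul_mk, ← op_mul, ← op_mul, htris i k h, ← mul_assoc,
      htris k i h.symm]
    rfl

/-- Evaluation of noncommutative polynomials at `A`, `As`. -/
noncomputable def ev (A As : Module.End K V) : FreeAlgebra K Bool →ₐ[K] Module.End K V :=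
  FreeAlgebra.lift K (fun b => cond b A As)

open MulOpposite in
/-- Key symmetry: `Ps 0 * w * Ps 0 = Ps 0 * w^rev * Ps 0`. -/
lemma corner_symm {A As : Module.End K V} {d δ : ℕ}
    {E : Fin (d + 1) → Submodule K V} {Es : Fin (δ + 1) → Submodule K V}
    (hA : ⨆ μ : K, A.eigenspace μ = ⊤) (hAs : ⨆ μ : K, As.eigenspace μ = ⊤)
    (h : IsTridiagonalOrdering A As d E) (hs : IsTridiagonalOrdering As A δ Es) :
    ∃ Q : Module.End K V, Q * Q = Q ∧ Q ≠ 0 ∧
      ∀ w : FreeAlgebra K Bool, Q * ev A As w * Q = Q * ev A As (star w) * Q := by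
  obtain ⟨th, P, hth, hP, hPsum, hPA, htri, -⟩ := exists_proj hA h
  obtain ⟨ths, Ps, hths, hPs, hPssum, hPsA, htris, hne⟩ := exists_proj hAs hs
  obtain ⟨T, hTe, hTes, hTa, hTas⟩ := exists_pairData hth hths hP hPsum hPs hPssum hPA hPsA
    htri htris
  refine ⟨Ps 0, by rw [hPs, if_pos rfl], hne 0, fun w => ?_⟩
  -- the pair of `w` and its reversal
  let x : Bool → Module.End K V := fun b => cond b A As
  let Φ : FreeAlgebra K Bool →ₐ[K] (Module.End K V × (Module.End K V)ᵐᵒᵖ) :=
    FreeAlgebra.lift K (fun b => (x b, op (x b)))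
  have hΦ : ∀ w, Φ w = (ev A As w, op (ev A As (star w))) := by
    intro w
    induction w using FreeAlgebra.induction with
    | grade0 r =>
      rw [AlgHom.commutes, FreeAlgebra.star_algebraMap, AlgHom.commutes]
      rfl
    | grade1 b =>
      rw [FreeAlgebra.star_ι]
      simp [Φ, ev, x]
    | mul a b ha hb =>
      rw [map_mul, ha, hb, star_mul, map_mul, map_mul, op_mul, Prod.mk_mul_mk]
    | add a b ha hb =>
      rw [map_add, ha, hb, star_add, map_add, map_add, op_add, Prod.mk_add_mk]
  have hmem : Φ w ∈ Algebra.adjoin K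
      ({∑ i, T.th i • T.e i, ∑ j, T.ths j • T.es j} :
        Set (Module.End K V × (Module.End K V)ᵐᵒᵖ)) := by
    induction w using FreeAlgebra.induction with
    | grade0 r =>
      rw [AlgHom.commutes]
      exact Subalgebra.algebraMap_mem _ r
    | grade1 b =>
      simp only [Φ, FreeAlgebra.lift_ι_apply]
      apply Algebra.subset_adjoin
      cases b with
      | true => left; rw [hTa]; rfl
      | false => right; rw [Set.mem_singleton_iff, hTas]; rfl
    | mul a b ha hb => rw [map_mul]; exact mul_mem ha hb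
    | add a b ha hb => rw [map_add]; exact add_mem ha hb
  let τ : (Module.End K V × (Module.End K V)ᵐᵒᵖ) →ₗ[K]
      (Module.End K V × (Module.End K V)ᵐᵒᵖ) :=
    { toFun := fun y => (unop y.2, op y.1)
      map_add' := fun y z => rfl
      map_smul' := fun c y => rfl }
  have hfix := T.L_one_fixed τ (fun y z => rfl) (fun i => by rw [hTe]; rfl)
    (fun j => by rw [hTes]; rfl) (T.corner hmem)
  rw [hTes, hΦ] at hfix
  have h2 := congrArg Prod.fst hfix
  simp only [τ, LinearMap.coe_mk, AddHom.coe_mk, Prod.mk_mul_mk, ← op_mul, unop_op] at h2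
  rw [← h2, mul_assoc]

/-- The isomorphism with the dual pair. -/
theorem exists_iso [FiniteDimensional K V] {A As : Module.End K V}
    (h : IsTridiagonalPair A As) :
    ∃ σ : V ≃ₗ[K] Module.Dual K V, (∀ v, σ (A v) = A.dualMap (σ v)) ∧
      ∀ v, σ (As v) = As.dualMap (σ v) := by
  classical
  obtain ⟨d, E, hE⟩ := h.ordering
  obtain ⟨δ, Es, hEs⟩ := h.ordering_star
  obtain ⟨Q, hQQ, hQ0, hQ⟩ := corner_symm h.diag h.diag_star hE hEs
  -- a nonzero vector fixed by `Q`, and a functional
  obtain ⟨u, hu⟩ : ∃ u, Q u ≠ 0 := by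
    by_contra hcon
    push Not at hcon
    exact hQ0 (LinearMap.ext hcon)
  set v₀ := Q u with hv₀
  have hQv₀ : Q v₀ = v₀ := by rw [hv₀, ← Module.End.mul_apply, hQQ]
  obtain ⟨f, hf⟩ : ∃ f : Module.Dual K V, f v₀ ≠ 0 := by
    by_contra hcon
    push Not at hcon
    exact hu ((Module.forall_dual_apply_eq_zero_iff K v₀).mp hcon)
  set f₀ : Module.Dual K V := f.comp Q with hf₀
  have hf₀v : f₀ v₀ ≠ 0 := by
    rw [hf₀, LinearMap.comp_apply, hQv₀]; exact hf
  have hf₀Q : ∀ v, f₀ (Q v) = f₀ v := by
    intro v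
    rw [hf₀, LinearMap.comp_apply, LinearMap.comp_apply, ← Module.End.mul_apply, hQQ]
  let α : FreeAlgebra K Bool →ₗ[K] V :=
    { toFun := fun w => ev A As w v₀
      map_add' := fun x y => by rw [map_add]; rfl
      map_smul' := fun c x => by rw [map_smul]; rfl }
  let β : FreeAlgebra K Bool →ₗ[K] Module.Dual K V :=
    { toFun := fun w => f₀.comp (ev A As (star w))
      map_add' := fun x y => by rw [star_add, map_add]; exact LinearMap.comp_add _ _ _
      map_smul' := fun c x => by
        have : star (c • x) = c • star x := by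
          rw [Algebra.smul_def, star_mul, FreeAlgebra.star_algebraMap, Algebra.smul_def,
            Algebra.commutes]
        rw [this, map_smul]
        exact LinearMap.comp_smul _ _ _ }
  have hα : ∀ w, α w = ev A As w v₀ := fun _ => rfl
  have hβ : ∀ w, β w = f₀.comp (ev A As (star w)) := fun _ => rfl
  have evT : ev A As (FreeAlgebra.ι K true) = A := by simp [ev]
  have evF : ev A As (FreeAlgebra.ι K false) = As := by simp [ev]
  -- `α` is surjective
  have hsurj : LinearMap.range α = ⊤ := by
    have i1 : ∀ w ∈ LinearMap.range α, A w ∈ LinearMap.range α := by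
      rintro _ ⟨w, rfl⟩
      refine ⟨FreeAlgebra.ι K true * w, ?_⟩
      rw [hα, hα, map_mul, evT, Module.End.mul_apply]
    have i2 : ∀ w ∈ LinearMap.range α, As w ∈ LinearMap.range α := by
      rintro _ ⟨w, rfl⟩
      refine ⟨FreeAlgebra.ι K false * w, ?_⟩
      rw [hα, hα, map_mul, evF, Module.End.mul_apply]
    rcases h.irred (LinearMap.range α) i1 i2 with h0 | h0
    · exfalso
      have : α 1 ∈ LinearMap.range α := ⟨1, rfl⟩
      rw [h0, Submodule.mem_bot, hα, map_one, Module.End.one_apply] at this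
      exact hu this
    · exact h0
  -- kernel inclusion
  have hker : ∀ w, α w = 0 → β w = 0 := by
    intro w hw
    ext v
    obtain ⟨y, rfl⟩ : v ∈ LinearMap.range α := by rw [hsurj]; exact Submodule.mem_top
    have h1 := LinearMap.congr_fun (hQ (star w * y)) v₀
    rw [star_mul, star_star, map_mul, map_mul] at h1
    simp only [Module.End.mul_apply, hQv₀] at h1
    have h2 : ev A As w v₀ = 0 := hw
    rw [h2, map_zero, map_zero] at h1
    rw [hβ, hα, LinearMap.comp_apply, ← hf₀Q, h1, map_zero]
    rfl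
  obtain ⟨s, hs⟩ := α.exists_rightInverse_of_surjective hsurj
  let σ : V →ₗ[K] Module.Dual K V := β.comp s
  have hσ : ∀ w, σ (α w) = β w := by
    intro w
    have h1 : α (s (α w)) = α w := LinearMap.congr_fun hs (α w)
    have h2 : β (s (α w) - w) = 0 := hker _ (by rw [map_sub, h1, sub_self])
    rw [map_sub, sub_eq_zero] at h2
    exact h2
  have hσA : ∀ v, σ (A v) = A.dualMap (σ v) := by
    intro v
    obtain ⟨w, rfl⟩ : v ∈ LinearMap.range α := by rw [hsurj]; exact Submodule.mem_top
    have h1 : A (α w) = α (FreeAlgebra.ι K true * w) := by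
      rw [hα, hα, map_mul, evT, Module.End.mul_apply]
    rw [h1, hσ, hσ, hβ, hβ, star_mul, FreeAlgebra.star_ι, map_mul, evT]
    rfl
  have hσAs : ∀ v, σ (As v) = As.dualMap (σ v) := by
    intro v
    obtain ⟨w, rfl⟩ : v ∈ LinearMap.range α := by rw [hsurj]; exact Submodule.mem_top
    have h1 : As (α w) = α (FreeAlgebra.ι K false * w) := by
      rw [hα, hα, map_mul, evF, Module.End.mul_apply]
    rw [h1, hσ, hσ, hβ, hβ, star_mul, FreeAlgebra.star_ι, map_mul, evF]
    rfl
  have hinj : Function.Injective σ := by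
    rw [← LinearMap.ker_eq_bot]
    have i1 : ∀ w ∈ LinearMap.ker σ, A w ∈ LinearMap.ker σ := by
      intro w hw
      rw [LinearMap.mem_ker] at hw ⊢
      rw [hσA, hw, map_zero]
    have i2 : ∀ w ∈ LinearMap.ker σ, As w ∈ LinearMap.ker σ := by
      intro w hw
      rw [LinearMap.mem_ker] at hw ⊢
      rw [hσAs, hw, map_zero]
    rcases h.irred (LinearMap.ker σ) i1 i2 with h0 | h0
    · exact h0
    · exfalso
      have h1 : α 1 ∈ LinearMap.ker σ := by rw [h0]; exact Submodule.mem_top
      rw [LinearMap.mem_ker, hσ, hβ, star_one, map_one] at h1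
      have h2 := LinearMap.congr_fun h1 v₀
      exact hf₀v h2
  refine ⟨σ.linearEquivOfInjective hinj Subspace.dual_finrank_eq.symm, ?_, ?_⟩
  · intro v
    exact hσA v
  · intro v
    exact hσAs v

/-- Tridiagonal pairs are transported by isomorphisms. -/
theorem transport {W : Type*} [AddCommGroup W] [Module K W] {A As : Module.End K V}
    {B Bs : Module.End K W} (h : IsTridiagonalPair A As) (σ : V ≃ₗ[K] W)
    (hA : ∀ v, σ (A v) = B (σ v)) (hAs : ∀ v, σ (As v) = Bs (σ v)) :
    IsTridiagonalPair B Bs := by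
  have key : ∀ {C : Module.End K V} {D : Module.End K W}, (∀ v, σ (C v) = D (σ v)) →
      ∀ μ : K, D.eigenspace μ = (C.eigenspace μ).map (σ : V →ₗ[K] W) := by
    intro C D hCD μ
    ext w
    rw [Submodule.mem_map]
    constructor
    · intro hw
      refine ⟨σ.symm w, ?_, by simp⟩
      rw [Module.End.mem_eigenspace_iff] at hw ⊢
      apply σ.injective
      rw [hCD, map_smul, σ.apply_symm_apply, hw]
    · rintro ⟨v, hv, rfl⟩
      rw [Module.End.mem_eigenspace_iff] at hv ⊢
      have := hCD v
      rw [hv, map_smul] at this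
      exact this.symm
  have hinjmap : Function.Injective (Submodule.map (σ : V →ₗ[K] W)) :=
    Submodule.map_injective_of_injective σ.injective
  have heig : ∀ {C : Module.End K V} {D : Module.End K W}, (∀ v, σ (C v) = D (σ v)) →
      ∀ μ : K, D.HasEigenvalue μ ↔ C.HasEigenvalue μ := by
    intro C D hCD μ
    unfold Module.End.HasEigenvalue Module.End.HasUnifEigenvalue
    have h1 : (Module.End.genEigenspace D μ) 1 = D.eigenspace μ := rfl
    have h2 : (Module.End.genEigenspace C μ) 1 = C.eigenspace μ := rfl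
    rw [h1, h2, key hCD, Ne, Ne]
    exact not_congr (Submodule.map_eq_bot_iff (p := C.eigenspace μ) (e := σ))
  have hdiag : ∀ {C : Module.End K V} {D : Module.End K W}, (∀ v, σ (C v) = D (σ v)) →
      ⨆ μ : K, C.eigenspace μ = ⊤ → ⨆ μ : K, D.eigenspace μ = ⊤ := by
    intro C D hCD hC
    simp_rw [key hCD]
    rw [← Submodule.map_iSup, hC, Submodule.map_top]
    exact LinearMap.range_eq_top.mpr σ.surjective
  have hord : ∀ {C Cs : Module.End K V} {D Ds : Module.End K W}, (∀ v, σ (C v) = D (σ v)) →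
      (∀ v, σ (Cs v) = Ds (σ v)) →
      (∃ (d : ℕ) (E : Fin (d + 1) → Submodule K V), IsTridiagonalOrdering C Cs d E) →
      ∃ (d : ℕ) (E : Fin (d + 1) → Submodule K W), IsTridiagonalOrdering D Ds d E := by
    intro C Cs D Ds hCD hCDs ⟨d, E, hE⟩
    refine ⟨d, fun i => (E i).map (σ : V →ₗ[K] W), ?_, ?_, ?_⟩
    · intro i j hij
      exact hE.inj (hinjmap hij)
    · intro X
      constructor
      · rintro ⟨i, rfl⟩
        obtain ⟨μ, hμ, hμ2⟩ := (hE.mem_iff (E i)).mp ⟨i, rfl⟩
        exact ⟨μ, (heig hCD μ).mpr hμ, by rw [key hCD, hμ2]⟩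
      · rintro ⟨μ, hμ, rfl⟩
        obtain ⟨i, hi⟩ := (hE.mem_iff (C.eigenspace μ)).mpr ⟨μ, (heig hCD μ).mp hμ, rfl⟩
        exact ⟨i, by rw [key hCD, ← hi]⟩
    · intro i
      rintro _ ⟨_, ⟨v, hv, rfl⟩, rfl⟩
      have h1 : Cs v ∈ _ := hE.tri i ⟨v, hv, rfl⟩
      have h2 : Ds (σ v) = σ (Cs v) := (hCDs v).symm
      simp only [LinearEquiv.coe_coe]
      rw [h2]
      have h3 : (σ : V →ₗ[K] W) (Cs v) ∈ Submodule.map (σ : V →ₗ[K] W)
          (⨆ (j : Fin (d + 1)) (_ : (j : ℕ) ≤ (i : ℕ) + 1 ∧ (i : ℕ) ≤ (j : ℕ) + 1), E j) :=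
        Submodule.mem_map_of_mem h1
      simp only [Submodule.map_iSup] at h3
      exact h3
  refine ⟨hdiag hA h.diag, hdiag hAs h.diag_star, hord hA hAs h.ordering,
    hord hAs hA h.ordering_star, ?_⟩
  intro X hX hXs
  have i1 : ∀ w ∈ X.comap (σ : V →ₗ[K] W), A w ∈ X.comap (σ : V →ₗ[K] W) := by
    intro w hw
    rw [Submodule.mem_comap] at hw ⊢
    simp only [LinearEquiv.coe_coe] at hw ⊢
    rw [hA]; exact hX _ hw
  have i2 : ∀ w ∈ X.comap (σ : V →ₗ[K] W), As w ∈ X.comap (σ : V →ₗ[K] W) := by
    intro w hw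
    rw [Submodule.mem_comap] at hw ⊢
    simp only [LinearEquiv.coe_coe] at hw ⊢
    rw [hAs]; exact hXs _ hw
  rcases h.irred (X.comap (σ : V →ₗ[K] W)) i1 i2 with h0 | h0
  · left
    rw [eq_bot_iff]
    intro x hx
    have h1 : σ.symm x ∈ X.comap (σ : V →ₗ[K] W) := by
      rw [Submodule.mem_comap]; simpa using hx
    rw [h0, Submodule.mem_bot] at h1
    rw [Submodule.mem_bot, ← σ.apply_symm_apply x, h1, map_zero]
  · right
    rw [eq_top_iff]
    intro x _
    have h1 : σ.symm x ∈ X.comap (σ : V →ₗ[K] W) := by rw [h0]; exact Submodule.mem_top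
    rw [Submodule.mem_comap] at h1
    simpa using h1

end Main

/-- For every field `K` and every tridiagonal pair `A, As` on a finite-dimensional nonzero
`K`-vector space `V`, the transposes form a tridiagonal pair on the dual space, and this pair is
isomorphic to `A, As`. -/
theorem result (K : Type*) [Field K] (V : Type*) [AddCommGroup V] [Module K V]
    [FiniteDimensional K V] [Nontrivial V] (A As : Module.End K V)
    (h : IsTridiagonalPair A As) :
    IsTridiagonalPair (A.dualMap : Module.End K (Module.Dual K V)) As.dualMap ∧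
    ∃ σ : V ≃ₗ[K] Module.Dual K V,
      (∀ v, σ (A v) = A.dualMap (σ v)) ∧ ∀ v, σ (As v) = As.dualMap (σ v) := by
  obtain ⟨σ, h1, h2⟩ := exists_iso h
  exact ⟨transport h σ h1 h2, σ, h1, h2⟩

end Pool.Agent.Results.MP_92be64_al.DualIso
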